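import Pool.Agent.J4H13.PL.Main
import Pool.Agent.J4H13.BD.KummerCorr
import Pool.Agent.J4H13.BD.MainB

/-!
# Correspondences on the covers of products of projective spaces: the forms of one character
-/

set_option autoImplicit false

open FF

namespace Pool.Agent.J4H13.PG

open Pool.Agent.W602.GT Pool.Agent.W603.LV Pool.Agent.J4H13.BC Pool.Agent.J4H13.PL
  Pool.Agent.J4H13.BD

variable {K : Type} [Field K] [Algebra ℂ K]

/-- there are no regular forms with the character of `v` -/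
def NoChi {J : Type} (g : J → K ≃ₐ[ℂ] K) (v : K) (N : ℕ) : Prop :=
  ∀ p : ℕ, 1 ≤ p → ∀ ω : (Derivation ℂ K K) [⋀^Fin p]→ₗ[K] K,
    (∀ σ D, g σ v * g σ (ω fun i => conjDer (g σ) (D i)) = v * ω D) →
    (∀ P : Place ℂ K, Divisorial N P → RegAt P fun D : Fin p → Derivation ℂ K K => ω D) → ω = 0

/-- The combination `∑ c j * g j` of automorphisms acts as zero on the regular forms of positive degree. -/
def KillsForms {n : ℕ} (c : Fin n → ℚ) (g : Fin n → K ≃ₐ[ℂ] K) (N : ℕ) : Prop :=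
  ∀ p : ℕ, 1 ≤ p → ∀ ω : (Derivation ℂ K K) [⋀^Fin p]→ₗ[K] K,
    (∀ P : Place ℂ K, Divisorial N P → RegAt P fun D : Fin p → Derivation ℂ K K => ω D) →
    ∀ D : Fin p → Derivation ℂ K K, ∑ j, (c j : K) * g j (ω fun i => conjDer (g j) (D i)) = 0

theorem noChi_of_kills {n : ℕ} {c : Fin n → ℚ} {g : Fin n → K ≃ₐ[ℂ] K} {N : ℕ}
    (h : KillsForms c g N) {v : K} (hne : ∑ j, (c j : K) * g j v ≠ 0)
    (hsg : ∀ j, g j v = v ∨ g j v = -v) : NoChi g v N := by
  intro p hp ω hinv hreg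
  have hv0 : v ≠ 0 := by
    rintro rfl
    apply hne
    refine Finset.sum_eq_zero fun j _ => ?_
    rw [map_zero, mul_zero]
  ext D
  have h1 := h p hp ω hreg D
  have h2 : ∀ j, g j (ω fun i => conjDer (g j) (D i)) = ω D / v * g j v := by
    intro j
    have h3 := hinv j D
    rcases hsg j with h4 | h4
    · rw [h4] at h3 ⊢
      have h5 := mul_left_cancel₀ hv0 h3
      rw [h5]
      field_simp
    · rw [h4] at h3 ⊢
      have h5 : g j (ω fun i => conjDer (g j) (D i)) = - ω D := by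
        have h6 : v * (- g j (ω fun i => conjDer (g j) (D i))) = v * ω D := by
          rw [← h3]; ring
        have h7 := mul_left_cancel₀ hv0 h6
        rw [← h7, neg_neg]
      rw [h5]
      field_simp
  have h3 : ω D / v * ∑ j, (c j : K) * g j v = 0 := by
    rw [← h1, Finset.mul_sum]
    refine Finset.sum_congr rfl fun j _ => ?_
    rw [h2]
    ring
  have h4 := (mul_eq_zero.1 h3).resolve_right hne
  exact (div_eq_zero_iff.1 h4).resolve_right hv0

lemma lf_fix {σ : K ≃ₐ[ℂ] K} {n : ℕ} {X : Fin (n + 1) → K} (h : ∀ k, σ (X k) = X k) (l : VV n) :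
    σ (lf X l) = lf X l := by
  unfold lf
  rw [map_sum]
  refine Finset.sum_congr rfl fun k _ => ?_
  rw [map_mul, h, AlgEquiv.commutes]

lemma aeval_fix {σ : K ≃ₐ[ℂ] K} {n : ℕ} {X : Fin (n + 1) → K} (h : ∀ k, σ (X k) = X k)
    (Q : MvPolynomial (Fin (n + 1)) ℂ) : σ (MvPolynomial.aeval X Q) = MvPolynomial.aeval X Q := by
  induction Q using MvPolynomial.induction_on with
  | C a => rw [MvPolynomial.aeval_C, AlgEquiv.commutes]
  | add p q hp hq => rw [map_add, map_add, hp, hq]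
  | mul_X p k hp => rw [map_mul, map_mul, hp, MvPolynomial.aeval_X, h]

lemma TT_conj {σ : K ≃ₐ[ℂ] K} {I : Type} [Fintype I] [DecidableEq I] {r : I → ℕ}
    {Y : (i : I) → Fin (r i + 1) → K} (h : ∀ i k, σ (Y i k) = Y i k)
    (D : ((i : I) × Fin (r i)) → Derivation ℂ K K) :
    σ (TT Y fun a => conjDer σ (D a)) = TT Y D := by
  unfold TT
  rw [AlgEquiv.map_det]
  congr 1
  ext a b
  obtain ⟨j, k⟩ := b
  refine Fin.cases ?_ (fun k => ?_) k
  · change σ (if a.1 = j then Y a.1 a.2 else 0) = if a.1 = j then Y a.1 a.2 else 0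
    split_ifs
    · exact h _ _
    · exact map_zero _
  · change σ (conjDer σ (D ⟨j, k⟩) (Y a.1 a.2)) = D ⟨j, k⟩ (Y a.1 a.2)
    rw [conjDer_apply, h, AlgEquiv.apply_symm_apply]

/-- **Contradiction.** -/
theorem no_adq_corr (hIND : S_IND) (hGEN : S_GENIND) (hAEV : S_AEV) (hALT : S_ALT) (hSCALE : S_SCALE)
    (hREGT : S_REGT) (hNZ : S_NZ) {N : ℕ} {J : Type} {g : J → K ≃ₐ[ℂ] K} {ι : Type} [Fintype ι]
    [DecidableEq ι] {n : ι → ℕ} {X : (i : ι) → Fin (n i + 1) → K} (hX0 : ∀ i, X i 0 = 1)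
    (hX : AlgebraicIndependent ℂ fun p : (i : ι) × Fin (n i) => X p.1 p.2.succ)
    {S : (i : ι) → Finset (VV (n i))} {v : K} (hno : NoChi g v N)
    (hgX : ∀ j i k, g j (X i k) = X i k) (hv0 : v ≠ 0)
    (hv : v ^ 2 = ∏ i, ∏ l ∈ S i, lf (X i) l) (hS0 : ∀ i, (0 : VV (n i)) ∉ S i)
    (hne : ∃ i, (S i).Nonempty) (hadq : ∀ i, (S i).Nonempty → AdqB (n i) (S i)) : False := by
  classical
  have hGA : ∀ i, GenA (X i) := by
    intro i
    refine ⟨hX0 i, ?_⟩
    exact hX.comp (fun k : Fin (n i) => (⟨i, k⟩ : (i : ι) × Fin (n i)))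
      (fun a b h => by simpa using h)
  have hlf : ∀ i, ∀ l ∈ S i, lf (X i) l ≠ 0 := by
    intro i l hl
    refine (hAEV K (n i) (X i) (hGA i)).1 l ?_
    rintro rfl
    exact hS0 i hl
  let I := {i : ι // (S i).Nonempty}
  have hadq' : ∀ j : I, AdqB (n j.1) (S j.1) := fun j => hadq j.1 j.2
  choose r e b Q hr hb hQ0 hQ hcard hreg using hadq'
  obtain ⟨i₀, hi₀⟩ := hne
  have hv' : v ^ 2 = ∏ j : I, ∏ l ∈ S j.1, lf (X j.1) l := by
    rw [hv]
    symm
    have h1 : ∏ j : I, ∏ l ∈ S j.1, lf (X j.1) l =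
        ∏ i ∈ Finset.univ.filter (fun i => (S i).Nonempty), ∏ l ∈ S i, lf (X i) l := by
      symm
      apply Finset.prod_subtype
      intro i
      simp
    rw [h1]
    apply Finset.prod_subset (Finset.subset_univ _)
    intro i _ hi
    have h2 : S i = ∅ := by
      by_contra h3
      apply hi
      rw [Finset.mem_filter]
      exact ⟨Finset.mem_univ i, Finset.nonempty_iff_ne_empty.2 h3⟩
    rw [h2, Finset.prod_empty]
  have hQX : ∀ j : I, MvPolynomial.aeval (X j.1) (Q j) ≠ 0 := fun j =>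
    (hAEV K _ (X j.1) (hGA j.1)).2 (e j) (Q j) (hQ j) (hQ0 j)
  -- the form
  obtain ⟨A, hA⟩ := hALT K I r (fun j k => lf (X j.1) (b j k))
  obtain ⟨D₀, hD₀⟩ := hNZ hSCALE K I r (fun j k => lf (X j.1) (b j k))
    (fun j => (hAEV K _ (X j.1) (hGA j.1)).1 _ ((hb j).ne_zero 0))
    (hIND hGEN K ι n X hX0 hX I Subtype.val Subtype.val_injective r b hb)
  let κ := (j : I) × Fin (r j)
  let p := Fintype.card κ
  have hp : 1 ≤ p := by
    have h3 : 0 < Fintype.card κ := Fintype.card_pos_iff.2 ⟨⟨⟨i₀, hi₀⟩, ⟨0, hr ⟨i₀, hi₀⟩⟩⟩⟩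
    exact h3
  let ε : κ ≃ Fin p := Fintype.equivFin κ
  obtain ⟨q, hq⟩ : ∃ q : K, q = (∏ j : I, MvPolynomial.aeval (X j.1) (Q j)) / v := ⟨_, rfl⟩
  have hq0 : q ≠ 0 := by
    rw [hq]
    exact div_ne_zero (Finset.prod_ne_zero_iff.2 fun j _ => hQX j) hv0
  have hinv : ∀ σ D, g σ v * g σ ((q • AlternatingMap.domDomCongr ε A)
      fun i => conjDer (g σ) (D i)) = v * (q • AlternatingMap.domDomCongr ε A) D := by
    intro σ D
    have h4 : ∀ D : Fin p → Derivation ℂ K K, (q • AlternatingMap.domDomCongr ε A) D =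
        q * TT (fun j k => lf (X j.1) (b j k)) (fun a => D (ε a)) := by
      intro D
      rw [AlternatingMap.smul_apply, AlternatingMap.domDomCongr_apply, hA, smul_eq_mul]
      rfl
    rw [h4, h4, map_mul, TT_conj (fun j k => lf_fix (hgX σ j.1) _) , hq, map_div₀, map_prod]
    have h5 : ∀ j : I, g σ (MvPolynomial.aeval (X j.1) (Q j)) = MvPolynomial.aeval (X j.1) (Q j) :=
      fun j => aeval_fix (hgX σ j.1) _
    simp only [h5]
    have h6 : g σ v ≠ 0 := (map_ne_zero _).2 hv0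
    field_simp
  have hω := hno p hp (q • AlternatingMap.domDomCongr ε A) hinv (by
    intro P _ D hD
    change Ge P 0 ((q • AlternatingMap.domDomCongr ε A) D)
    have h4 : (q • AlternatingMap.domDomCongr ε A) D =
        q * TT (fun j k => lf (X j.1) (b j k)) (fun a => D (ε a)) := by
      rw [AlternatingMap.smul_apply, AlternatingMap.domDomCongr_apply, hA, smul_eq_mul]
      rfl
    rw [h4, hq]
    exact reg_place hSCALE hREGT (fun j => hlf j.1) hcard hQX hv0 hv'
      (fun j => hreg j K (X j.1) (hGA j.1) P) (fun a => hD (ε a)))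
  have h5 : (q • AlternatingMap.domDomCongr ε A) (fun i => D₀ (ε.symm i)) = 0 := by
    rw [hω]
    rfl
  rw [AlternatingMap.smul_apply, AlternatingMap.domDomCongr_apply, hA, smul_eq_mul] at h5
  have h6 : (fun i => D₀ (ε.symm i)) ∘ ε = D₀ := by
    funext a
    simp
  have h7 : TT (fun j k => lf (X j.1) (b j k)) ((fun i => D₀ (ε.symm i)) ∘ ε) = 0 :=
    (mul_eq_zero.1 h5).resolve_left hq0
  rw [h6] at h7
  exact hD₀ h7


end Pool.Agent.J4H13.PG
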