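import Pool.Agent.J4H13.PG.Chi
import Pool.Agent.J4H13.BD.Final
import Pool.Agent.J4H13.PL.All

/-!
# Correspondences on the covers of products of projective spaces branched along hyperplanes
-/

set_option autoImplicit false

open FF

namespace Pool.Agent.J4H13.PG

open Pool.Agent.W602.GT Pool.Agent.W603.LV Pool.Agent.J4H13.BC Pool.Agent.J4H13.PL
  Pool.Agent.J4H13.BD Pool.Agent.Helper397.HK

variable {K : Type} [Field K] [Algebra ℂ K]

/-- **The double covers.** -/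
theorem good_prod_corr (J : Jobs) {N : ℕ} {J₁ : Type} {g : J₁ → K ≃ₐ[ℂ] K} {ι : Type} [Fintype ι]
    [DecidableEq ι] {n : ι → ℕ} {X : (i : ι) → Fin (n i + 1) → K} (hX0 : ∀ i, X i 0 = 1)
    (hX : AlgebraicIndependent ℂ fun p : (i : ι) × Fin (n i) => X p.1 p.2.succ)
    {S : (i : ι) → Finset (VV (n i))} (hPw : ∀ i, Pw (S i)) (heven : ∀ i, Even (S i).card)
    (hS : ∀ i, n i ≤ 2 ∨ Klt (S i)) {v : K} (hno : NoChi g v N)
    (hgX : ∀ j i k, g j (X i k) = X i k)
    (hv : v ^ 2 = ∏ i, ∏ l ∈ S i, lf (X i) l) :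
    ∃ L : IntermediateField ℂ K, (∀ i k, X i k ∈ L) ∧ v ∈ L ∧
      ∃ m : ℕ, Nonempty (L →ₐ[ℂ] FractionRing (PR m)) := by
  classical
  have hGA : ∀ i, GenA (X i) := by
    intro i
    refine ⟨hX0 i, ?_⟩
    exact hX.comp (fun k : Fin (n i) => (⟨i, k⟩ : (i : ι) × Fin (n i)))
      (fun a b h => by simpa using h)
  have hS0 : ∀ i, (0 : VV (n i)) ∉ S i := by
    intro i h0
    obtain ⟨k, hk⟩ := heven i
    have hpos : 0 < (S i).card := Finset.card_pos.2 ⟨0, h0⟩
    obtain ⟨b, hb, hne⟩ : ∃ b ∈ S i, b ≠ 0 := by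
      by_contra hcon
      push Not at hcon
      have h1 : S i ⊆ {0} := fun b hb => Finset.mem_singleton.2 (hcon b hb)
      have h2 := Finset.card_le_card h1
      rw [Finset.card_singleton] at h2
      omega
    exact (hPw i 0 h0 b hb (Ne.symm hne)).ne_zero 0 rfl
  have hv0 : v ≠ 0 := by
    rintro rfl
    have h1 : ∏ i, ∏ l ∈ S i, lf (X i) l = 0 := by
      rw [← hv]
      ring
    obtain ⟨i, -, hi⟩ := Finset.prod_eq_zero_iff.1 h1
    obtain ⟨l, hl, h2⟩ := Finset.prod_eq_zero_iff.1 hi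
    refine (J.AEV K (n i) (X i) (hGA i)).1 l ?_ h2
    rintro rfl
    exact hS0 i hl
  by_cases hne : ∃ i, (S i).Nonempty
  · by_cases hgood : ∃ i, GoodP (X i) (∏ l ∈ S i, lf (X i) l)
    · obtain ⟨i₀, hi₀⟩ := hgood
      exact J.GOODL J.GENIND J.AEV K ι n X hX0 hX S hS0 v hv i₀ hi₀
    · push Not at hgood
      exfalso
      refine no_adq_corr J.IND J.GENIND J.AEV J.ALT J.SCALE J.REGT J.NZ hX0 hX hno hgX hv0 hv hS0 hne ?_
      intro i hi
      obtain ⟨k, hk⟩ := heven i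
      have hpos : 0 < (S i).card := Finset.card_pos.2 hi
      rcases dich J.AEV J.LOV J.KLTREG J.REGTWO J.RATK J.RATTWO J.PAIRK (S := S i) (d := k)
        (by omega) (by omega) (hPw i) (hS i) with h | h
      · exact absurd (h K (X i) (hGA i)) (hgood i)
      · exact h
  · push Not at hne
    have hv1 : v ^ 2 = 1 := by
      rw [hv]
      apply Finset.prod_eq_one
      intro i _
      rw [hne i, Finset.prod_empty]
    obtain ⟨-, m, hm⟩ := J.GENIND K ((i : ι) × Fin (n i)) ((i : ι) × Fin (n i)) _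
      (fun p => X p.1 p.2.succ) hX le_rfl
      (fun a => IntermediateField.subset_adjoin _ _ ⟨a, rfl⟩)
    refine ⟨_, ?_, ?_, m, hm⟩
    · intro i k
      refine Fin.cases ?_ (fun k => ?_) k
      · rw [hX0]
        exact one_mem _
      · exact IntermediateField.subset_adjoin _ _ ⟨⟨i, k⟩, rfl⟩
    · have hv2 : (v - 1) * (v + 1) = 0 := by linear_combination hv1
      rcases mul_eq_zero.1 hv2 with h | h
      · rw [sub_eq_zero.1 h]
        exact one_mem _
      · rw [eq_neg_of_add_eq_zero_left h]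
        exact neg_mem (one_mem _)

/-- the elements which are generated by fixed elements are fixed -/
lemma fix_adjoin_set {σ : K ≃ₐ[ℂ] K} {s : Set K} (hs : ∀ z ∈ s, σ z = z) :
    ∀ z ∈ IntermediateField.adjoin ℂ s, σ z = z := by
  have h1 : IntermediateField.adjoin ℂ s ≤
      IntermediateField.fixedField (Subgroup.zpowers σ) := by
    rw [IntermediateField.adjoin_le_iff]
    intro z hz
    rw [SetLike.mem_coe, IntermediateField.mem_fixedField_iff]
    intro τ hτ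
    have h3 : Subgroup.zpowers σ ≤ MulAction.stabilizer (K ≃ₐ[ℂ] K) z := by
      rw [Subgroup.zpowers_le, MulAction.mem_stabilizer_iff]
      exact hs z hz
    exact h3 hτ
  intro z hz
  exact (IntermediateField.mem_fixedField_iff _ _).1 (h1 hz) σ (Subgroup.mem_zpowers σ)

/-- a factor which is fixed does not change the character -/
lemma NoChi.of_mul {J : Type} {g : J → K ≃ₐ[ℂ] K} {u v : K} {N : ℕ} (hu : ∀ j, g j u = u)
    (h : NoChi g (u * v) N) : NoChi g v N := by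
  intro p hp ω hinv hreg
  refine h p hp ω (fun σ D => ?_) hreg
  rw [map_mul, hu, mul_assoc, hinv σ D, mul_assoc]

open scoped Classical in
/-- **Correspondences in the group ring.** -/
theorem corr_prod (J : Jobs) {ι : Type} [Fintype ι] [DecidableEq ι] {n : ι → ℕ} {d : ℕ}
    {X : (i : ι) → Fin (n i + 1) → K} (hX0 : ∀ i, X i 0 = 1)
    (hX : AlgebraicIndependent ℂ fun p : (i : ι) × Fin (n i) => X p.1 p.2.succ)
    {A : (i : ι) → Finset (VV (n i))} (hPw : ∀ i, Pw (A i)) (hA0 : ∀ i, (0 : VV (n i)) ∉ A i)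
    (hA : ∀ i, n i ≤ 2 ∨ ∀ W : Submodule ℂ (VV (n i)), W ≠ ⊥ → W ≠ ⊤ →
      ((A i).filter fun l => l ∈ W).card < 2 * Module.finrank ℂ W)
    {k : ℕ} {w : Fin k → K} (hw : ∀ r, ∃ S : (i : ι) → Finset (VV (n i)),
      (∀ i, S i ⊆ A i ∧ Even (S i).card) ∧ w r ^ 2 = ∏ i, ∏ l ∈ S i, lf (X i) l)
    (hK : IntermediateField.adjoin ℂ
      (Set.range (fun p : (i : ι) × Fin (n i + 1) => X p.1 p.2) ∪ Set.range w) = ⊤)
    {m : ℕ} {c : Fin m → ℚ} {g : Fin m → K ≃ₐ[ℂ] K} (hgX : ∀ j i a, g j (X i a) = X i a)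
    (hkill : KillsForms c g d) {N : ℕ} {Y : ProjVar N} {ξ : Fin (N + 1) → K} (hξ : ξ ∈ Y.Pts K) :
    ∃ (B : Subalgebra ℂ K) (hB : ∀ j i, g j (ξ i) ∈ B), B.FG ∧
      ∀ (φ φ' : B →ₐ[ℂ] ℂ) (p p' : Fin m → Y.Pts ℂ),
        (∀ j i, (p j).1 i = φ ⟨g j (ξ i), hB j i⟩) →
        (∀ j i, (p' j).1 i = φ' ⟨g j (ξ i), hB j i⟩) →
        ∑ j, c j • cls (p j) = ∑ j, c j • cls (p' j) := by
  have hGA : ∀ i, GenA (X i) := by
    intro i
    refine ⟨hX0 i, ?_⟩
    exact hX.comp (fun k : Fin (n i) => (⟨i, k⟩ : (i : ι) × Fin (n i)))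
      (fun a b h => by simpa using h)
  choose S hS hw2 using hw
  have hlf : ∀ r i, ∀ l ∈ S r i, lf (X i) l ≠ 0 := by
    intro r i l hl
    refine (J.AEV K (n i) (X i) (hGA i)).1 l ?_
    rintro rfl
    exact hA0 i ((hS r i).1 hl)
  have hw0 : ∀ r, w r ≠ 0 := by
    intro r h
    have h1 : ∏ i, ∏ l ∈ S r i, lf (X i) l = 0 := by
      rw [← hw2, h]
      ring
    obtain ⟨i, -, hi⟩ := Finset.prod_eq_zero_iff.1 h1
    obtain ⟨l, hl, h2⟩ := Finset.prod_eq_zero_iff.1 hi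
    exact hlf r i l hl h2
  obtain ⟨k₀, hk₀⟩ : ∃ k₀ : IntermediateField ℂ K, k₀ = IntermediateField.adjoin ℂ
      (Set.range (fun p : (i : ι) × Fin (n i + 1) => X p.1 p.2)) := ⟨_, rfl⟩
  have hXk : ∀ i k, X i k ∈ k₀ := by
    intro i k
    rw [hk₀]
    exact IntermediateField.subset_adjoin _ _ ⟨⟨i, k⟩, rfl⟩
  have hfix : ∀ j, ∀ z ∈ k₀, g j z = z := by
    intro j z hz
    rw [hk₀] at hz
    refine fix_adjoin_set ?_ z hz
    rintro _ ⟨p, rfl⟩
    exact hgX j p.1 p.2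
  have hlk : ∀ i (l : VV (n i)), lf (X i) l ∈ k₀ := by
    intro i l
    unfold lf
    exact _root_.sum_mem fun k _ => mul_mem (k₀.algebraMap_mem _) (hXk i k)
  have hwk : ∀ r, w r ^ 2 ∈ k₀ := by
    intro r
    rw [hw2]
    exact _root_.prod_mem fun i _ => _root_.prod_mem fun l _ => hlk i l
  have hgen' : IntermediateField.adjoin k₀ (Set.range w) = ⊤ := by
    apply IntermediateField.restrictScalars_injective ℂ
    rw [IntermediateField.restrictScalars_top, eq_top_iff, ← hK,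
      IntermediateField.adjoin_le_iff]
    rintro z (hz | hz)
    · change z ∈ IntermediateField.adjoin k₀ (Set.range w)
      have h1 : z ∈ k₀ := by
        obtain ⟨p, rfl⟩ := hz
        exact hXk p.1 p.2
      exact (IntermediateField.adjoin k₀ (Set.range w)).algebraMap_mem ⟨z, h1⟩
    · change z ∈ IntermediateField.adjoin k₀ (Set.range w)
      exact IntermediateField.subset_adjoin _ _ hz
  obtain ⟨hfin, hgal⟩ := isGalois_sqrt hwk hgen'
  have hcharK : CharZero K := charZero_of_C K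
  have hft : Fintype (K ≃ₐ[k₀] K) := Fintype.ofFinite _
  -- the automorphisms as elements of the Galois group
  have hr : ∀ j, ∃ σ : K ≃ₐ[k₀] K, ∀ z, σ z = g j z := by
    intro j
    refine ⟨AlgEquiv.ofRingEquiv (f := (g j : K ≃+* K)) (fun z => ?_), fun z => rfl⟩
    exact hfix j z.1 z.2
  choose r hr using hr
  obtain ⟨Γ, hΓ⟩ : ∃ Γ : (K ≃ₐ[k₀] K) → ℚ, Γ = fun σ => ∑ j, if r j = σ then c j else 0 :=
    ⟨_, rfl⟩
  -- sums
  have hsumK : ∀ z : K, ∑ σ, (Γ σ : K) * σ z = ∑ j, (c j : K) * g j z := by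
    intro z
    rw [hΓ]
    have h3 : ∀ σ : K ≃ₐ[k₀] K, ((∑ j, if r j = σ then c j else 0 : ℚ) : K) * σ z =
        ∑ j, if r j = σ then (c j : K) * σ z else 0 := by
      intro σ
      rw [Rat.cast_sum, Finset.sum_mul]
      refine Finset.sum_congr rfl fun j _ => ?_
      by_cases h : r j = σ
      · rw [if_pos h, if_pos h]
      · rw [if_neg h, if_neg h, Rat.cast_zero, zero_mul]
    simp only [h3]
    rw [Finset.sum_comm]
    refine Finset.sum_congr rfl fun j _ => ?_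
    rw [Finset.sum_ite_eq Finset.univ (r j), if_pos (Finset.mem_univ _), hr]
  have hsumC : ∀ q : (K ≃ₐ[k₀] K) → Y.Pts ℂ, ∑ σ, Γ σ • cls (q σ) = ∑ j, c j • cls (q (r j)) := by
    intro q
    rw [hΓ]
    have h3 : ∀ σ : K ≃ₐ[k₀] K, (∑ j, if r j = σ then c j else 0 : ℚ) • cls (q σ) =
        ∑ j, if r j = σ then c j • cls (q σ) else 0 := by
      intro σ
      rw [Finset.sum_smul]
      refine Finset.sum_congr rfl fun j _ => ?_
      by_cases h : r j = σ
      · rw [if_pos h, if_pos h]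
      · rw [if_neg h, if_neg h, zero_smul]
    simp only [h3]
    rw [Finset.sum_comm]
    refine Finset.sum_congr rfl fun j _ => ?_
    rw [Finset.sum_ite_eq Finset.univ (r j), if_pos (Finset.mem_univ _)]
  have hk₀u : ∃ m : ℕ, Nonempty (k₀ →ₐ[ℂ] FractionRing (PR m)) := by
    obtain ⟨-, q, hq⟩ := J.GENIND K ((i : ι) × Fin (n i)) ((i : ι) × Fin (n i)) _
      (fun p => X p.1 p.2.succ) hX le_rfl
      (fun a => IntermediateField.subset_adjoin _ _ ⟨a, rfl⟩)
    have h3 : k₀ = IntermediateField.adjoin ℂ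
        (Set.range fun p : (i : ι) × Fin (n i) => X p.1 p.2.succ) := by
      rw [hk₀]
      apply le_antisymm
      · rw [IntermediateField.adjoin_le_iff]
        rintro _ ⟨⟨i, a⟩, rfl⟩
        refine Fin.cases ?_ (fun a => ?_) a
        · change X i 0 ∈ IntermediateField.adjoin ℂ _
          rw [hX0]
          exact one_mem _
        · exact IntermediateField.subset_adjoin _ _ ⟨⟨i, a⟩, rfl⟩
      · apply IntermediateField.adjoin.mono
        rintro _ ⟨⟨i, a⟩, rfl⟩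
        exact ⟨⟨i, a.succ⟩, rfl⟩
    rw [h3]
    exact ⟨q, hq⟩
  obtain ⟨B, hB, hBfg, hmain⟩ := kummer_corr hwk hw0 hgen' Γ hk₀u (by
    intro T hT
    rw [hsumK] at hT
    have hsg : ∀ j, g j (∏ i ∈ T, w i) = ∏ i ∈ T, w i ∨ g j (∏ i ∈ T, w i) = -∏ i ∈ T, w i := by
      intro j
      apply sq_eq_sq_iff_eq_or_eq_neg.1
      rw [← map_pow]
      apply hfix
      rw [← Finset.prod_pow]
      exact _root_.prod_mem fun i _ => hwk i
    have hno := noChi_of_kills hkill hT hsg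
    obtain ⟨S', u, v, hev, hsub, huL, huv, hv⟩ := J.CHAR K ι n X k w S hlf
      (fun r i => (hS r i).2) hw2 T
    have hsub' : ∀ i, S' i ⊆ A i := by
      intro i l hl
      obtain ⟨r, hr⟩ := hsub i l hl
      exact (hS r i).1 hr
    rw [huv] at hno
    have hno' : NoChi g v d := hno.of_mul fun j => hfix j u (huL k₀ hXk)
    obtain ⟨L, hXL, hvL, q, hq⟩ := good_prod_corr J hX0 hX (fun i => (hPw i).mono (hsub' i)) hev
      (fun i => (hA i).imp_right fun h => klt_mono (hsub' i) h) hno' hgX hv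
    refine ⟨L, ?_, ?_, q, hq⟩
    · rw [hk₀, IntermediateField.adjoin_le_iff]
      rintro _ ⟨p, rfl⟩
      exact hXL p.1 p.2
    · rw [huv]
      exact mul_mem (huL L hXL) hvL) ξ
  obtain ⟨i₀, hi₀⟩ := Function.ne_iff.1 hξ.1
  obtain ⟨B', hB'def⟩ : ∃ B' : Subalgebra ℂ K, B' = B ⊔
    Algebra.adjoin ℂ (Set.range fun σ : K ≃ₐ[k₀] K => (σ (ξ i₀))⁻¹) := ⟨_, rfl⟩
  have hBB : B ≤ B' := by
    rw [hB'def]
    exact le_sup_left
  have hinv : ∀ σ : K ≃ₐ[k₀] K, (σ (ξ i₀))⁻¹ ∈ B' := by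
    intro σ
    rw [hB'def]
    exact (le_sup_right : Algebra.adjoin ℂ (Set.range fun σ : K ≃ₐ[k₀] K => (σ (ξ i₀))⁻¹) ≤ _)
      (Algebra.subset_adjoin ⟨σ, rfl⟩)
  refine ⟨B', fun j i => hBB (by rw [← hr]; exact hB (r j) i), ?_, ?_⟩
  · rw [hB'def]
    exact hBfg.sup (Subalgebra.fg_def.2 ⟨_, Set.finite_range _, rfl⟩)
  intro φ φ' p p' hp hp'
  -- the points of the orbit
  have hpt : ∀ ψ : B' →ₐ[ℂ] ℂ, ∀ σ : K ≃ₐ[k₀] K,
      (fun i => ψ ⟨σ (ξ i), hBB (hB σ i)⟩) ∈ Y.Pts ℂ := by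
    intro ψ σ
    constructor
    · intro h3
      have h4 : ψ ⟨σ (ξ i₀), hBB (hB σ i₀)⟩ = 0 := congrFun h3 i₀
      have h5 : (⟨σ (ξ i₀), hBB (hB σ i₀)⟩ : B') * ⟨_, hinv σ⟩ = 1 := by
        apply Subtype.ext
        change σ (ξ i₀) * (σ (ξ i₀))⁻¹ = 1
        exact mul_inv_cancel₀ fun h6 => hi₀ (by
          have h7 := σ.injective (h6.trans (map_zero σ).symm)
          exact h7)
      have h6 := congrArg ψ h5
      rw [map_mul, h4, zero_mul, map_one] at h6
      exact zero_ne_one h6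
    · have h3 : ProjVar.OnCone Y (fun i => (⟨σ (ξ i), hBB (hB σ i)⟩ : B')) := by
        apply ProjVar.OnCone.of_injective B'.val Subtype.val_injective
        have h4 : ProjVar.OnCone Y ξ := hξ.2
        exact h4.map ((σ : K →ₐ[k₀] K).restrictScalars ℂ)
      exact h3.map ψ
  have hval : ∀ (ψ : B' →ₐ[ℂ] ℂ) (q : Fin m → Y.Pts ℂ),
      (∀ j i, (q j).1 i = ψ ⟨g j (ξ i), hBB (by rw [← hr]; exact hB (r j) i)⟩) →
      ∑ j, c j • cls (q j) = ∑ σ, Γ σ • cls (⟨_, hpt ψ σ⟩ : Y.Pts ℂ) := by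
    intro ψ q hq
    rw [hsumC]
    refine Finset.sum_congr rfl fun j _ => ?_
    congr 2
    apply Subtype.ext
    funext i
    rw [hq]
    change _ = ψ _
    congr 1
    exact Subtype.ext (hr j _).symm
  rw [hval φ p hp, hval φ' p' hp']
  exact hmain Y hξ.2 (φ.comp (Subalgebra.inclusion hBB)) (φ'.comp (Subalgebra.inclusion hBB))
    (fun σ => ⟨_, hpt φ σ⟩) (fun σ => ⟨_, hpt φ' σ⟩) (fun σ i => rfl) (fun σ i => rfl)

end Pool.Agent.J4H13.PG
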